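import Mathlib

/-!
# Edit distance balls with exponentially large deterministic automata

Let `x = 1 2 ... n` be the word of `n` distinct letters, and let `*` be a further letter.  The
ball of radius `n` around `x` has at least `2 ^ n` different left quotients: for a set `S` of
positions let `u S` be the word `x` with the letters of `S` replaced by `*`.  Then the distance of
`x` and `u S ++ * ^ t ++ (letters of x after position j)` is `#(S ∩ [1, j]) + (n - j) + t`.
-/

set_option autoImplicit false

namespace Pool.Agent.Results.MP_ecf776_lc.ExponentialBalls

/-- `v` arises from `u` by the insertion, the deletion or the substitution of one symbol. -/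
def OneEdit {A : Type} (u v : List A) : Prop :=
  ∃ (p s : List A) (a b : A), (u = p ++ s ∧ v = p ++ a :: s) ∨ (u = p ++ a :: s ∧ v = p ++ s) ∨
    (u = p ++ a :: s ∧ v = p ++ b :: s)

/-- `Edits m u v`: `v` arises from `u` by `m` single-symbol edits. -/
inductive Edits {A : Type} : ℕ → List A → List A → Prop
  | refl (u : List A) : Edits 0 u u
  | step {m : ℕ} {u v w : List A} : Edits m u v → OneEdit v w → Edits (m + 1) u w

/-- The edit distance: the least number of single-symbol insertions, deletions and substitutions
that transform `u` into `v`. -/
noncomputable def editDist {A : Type} (u v : List A) : ℕ := sInf {m | Edits m u v}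

/-- The ball of radius `k` around `x`. -/
def ball {A : Type} (k : ℕ) (x : List A) : Language A := {w | editDist x w ≤ k}

/-- The number of states of the minimal complete deterministic finite automaton of `L`. -/
noncomputable def sc {A : Type} (L : Language A) : ℕ :=
  sInf {m | ∃ M : DFA A (Fin m), M.accepts = L}

section

variable {A : Type}

theorem OneEdit.context {u v : List A} (h : OneEdit u v) (l r : List A) :
    OneEdit (l ++ u ++ r) (l ++ v ++ r) := by
  obtain ⟨p, s, a, b, h⟩ := h
  refine ⟨l ++ p, s ++ r, a, b, ?_⟩
  rcases h with ⟨rfl, rfl⟩ | ⟨rfl, rfl⟩ | ⟨rfl, rfl⟩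
  · left; simp
  · right; left; simp
  · right; right; simp

theorem Edits.context {m : ℕ} {u v : List A} (h : Edits m u v) (l r : List A) :
    Edits m (l ++ u ++ r) (l ++ v ++ r) := by
  induction h with
  | refl u => exact Edits.refl _
  | step h1 h2 ih => exact Edits.step ih (h2.context l r)

theorem Edits.trans {m k : ℕ} {u v w : List A} (h1 : Edits m u v) (h2 : Edits k v w) :
    Edits (m + k) u w := by
  induction h2 with
  | refl u => exact h1
  | step _ h3 ih => exact Edits.step (ih h1) h3

theorem Edits.insert (l c r : List A) : Edits c.length (l ++ r) (l ++ c ++ r) := by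
  induction c with
  | nil => simpa using Edits.refl (l ++ r)
  | cons a c ih =>
    refine Edits.step ih ⟨l, c ++ r, a, a, ?_⟩
    left
    simp

theorem Edits.delete (l c r : List A) : Edits c.length (l ++ c ++ r) (l ++ r) := by
  induction c with
  | nil => simpa using Edits.refl (l ++ r)
  | cons a c ih =>
    have h : Edits 1 (l ++ (a :: c) ++ r) (l ++ c ++ r) := by
      refine Edits.step (Edits.refl _) ⟨l, c ++ r, a, a, ?_⟩
      right; left
      simp
    have h2 := h.trans ih
    rw [List.length_cons, Nat.add_comm]
    exact h2

theorem edits_nonempty (u v : List A) : {m | Edits m u v}.Nonempty := by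
  have h1 := Edits.delete [] u []
  have h2 := Edits.insert [] v []
  simp only [List.nil_append, List.append_nil] at h1 h2
  exact ⟨_, h1.trans h2⟩

/-- A common subsequence of the two words: every edit costs at most one letter. -/
theorem Edits.common {m : ℕ} {u v : List A} (h : Edits m u v) :
    ∃ z : List A, z.Sublist u ∧ z.Sublist v ∧ v.length ≤ z.length + m := by
  induction h with
  | refl u => exact ⟨u, List.Sublist.refl _, List.Sublist.refl _, by simp⟩
  | @step m u v w h1 h2 ih =>
    obtain ⟨z, hz1, hz2, hz3⟩ := ih
    have key : ∀ (p s : List A) (a : A), z.Sublist (p ++ a :: s) →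
        ∃ z' : List A, z'.Sublist z ∧ z'.Sublist (p ++ s) ∧ z.length ≤ z'.length + 1 := by
      intro p s a hz
      obtain ⟨z1, z2, rfl, hp, hs⟩ := List.sublist_append_iff.1 hz
      rcases List.sublist_cons_iff.1 hs with hs' | ⟨r, rfl, hr⟩
      · exact ⟨z1 ++ z2, List.Sublist.refl _, hp.append hs', by omega⟩
      · refine ⟨z1 ++ r, ?_, hp.append hr, by simp only [List.length_append, List.length_cons]; omega⟩
        exact (List.Sublist.refl z1).append (List.sublist_cons_self a r)
    obtain ⟨p, s, a, b, h⟩ := h2
    rcases h with ⟨rfl, rfl⟩ | ⟨rfl, rfl⟩ | ⟨rfl, rfl⟩
    · refine ⟨z, hz1, hz2.trans ?_, ?_⟩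
      · exact (List.Sublist.refl p).append (List.sublist_cons_self a s)
      · simp only [List.length_append, List.length_cons] at hz3 ⊢
        omega
    · obtain ⟨z', h3, h4, h5⟩ := key p s a hz2
      refine ⟨z', h3.trans hz1, h4, ?_⟩
      simp only [List.length_append, List.length_cons] at hz3 ⊢
      omega
    · obtain ⟨z', h3, h4, h5⟩ := key p s a hz2
      refine ⟨z', h3.trans hz1, h4.trans ?_, ?_⟩
      · exact (List.Sublist.refl p).append (List.sublist_cons_self b s)
      · simp only [List.length_append, List.length_cons] at hz3 ⊢
        omega

theorem mem_ball {k : ℕ} {x w : List A} : w ∈ ball k x ↔ editDist x w ≤ k := Iff.rfl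

end

section

variable {n : ℕ}

/-- The word `1 2 ... n`. -/
def base (n : ℕ) : List (Option (Fin n)) := (List.finRange n).map some

/-- The letter at the position `i` of `word S`. -/
def sym (S : Finset (Fin n)) (i : Fin n) : Option (Fin n) := if i ∈ S then none else some i

/-- The word `1 2 ... n` in which the letters of `S` are replaced by the letter `none`. -/
def word (S : Finset (Fin n)) : List (Option (Fin n)) := (List.finRange n).map (sym S)

theorem edits_sym (S : Finset (Fin n)) (l : List (Fin n)) :
    Edits (l.countP (· ∈ S)) (l.map some) (l.map (sym S)) := by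
  induction l with
  | nil => exact Edits.refl _
  | cons i l ih =>
    have h1 := ih.context [some i] []
    simp only [List.append_nil, List.singleton_append] at h1
    by_cases hi : i ∈ S
    · rw [List.countP_cons_of_pos (by simpa using hi)]
      refine Edits.step h1 ⟨[], l.map (sym S), some i, none, ?_⟩
      right; right
      simp [sym, hi]
    · rw [List.countP_cons_of_neg (by simpa using hi)]
      simpa [sym, hi] using h1

/-- The test words. -/
def test (n j t : ℕ) : List (Option (Fin n)) :=
  List.replicate t none ++ ((List.finRange n).drop j).map some

theorem edits_test (S : Finset (Fin n)) (j t : ℕ) :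
    Edits (((List.finRange n).take j).countP (· ∈ S) + ((n - j) + t)) (base n)
      (word S ++ test n j t) := by
  have h1 := (edits_sym S ((List.finRange n).take j)).context []
    (((List.finRange n).drop j).map some)
  simp only [List.nil_append] at h1
  have h2 : base n = ((List.finRange n).take j).map some ++
      ((List.finRange n).drop j).map some := by
    rw [← List.map_append, List.take_append_drop]
    rfl
  have h3 := Edits.insert (((List.finRange n).take j).map (sym S))
    (((List.finRange n).drop j).map (sym S) ++ List.replicate t none)
    (((List.finRange n).drop j).map some)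
  have h4 : (((List.finRange n).drop j).map (sym S) ++
      List.replicate t (none : Option (Fin n))).length = (n - j) + t := by
    simp
  rw [h4] at h3
  have h5 : word S ++ test n j t = ((List.finRange n).take j).map (sym S) ++
      (((List.finRange n).drop j).map (sym S) ++ List.replicate t none) ++
      ((List.finRange n).drop j).map some := by
    have : word S = ((List.finRange n).take j).map (sym S) ++
        ((List.finRange n).drop j).map (sym S) := by
      rw [← List.map_append, List.take_append_drop]
      rfl
    rw [this, test]
    simp only [List.append_assoc]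
  rw [h2, h5]
  exact h1.trans h3

theorem common_length (S : Finset (Fin n)) (j t : ℕ) (z : List (Option (Fin n)))
    (h1 : z.Sublist (base n)) (h2 : z.Sublist (word S ++ test n j t)) :
    z.length + ((List.finRange n).take j).countP (· ∈ S) ≤ n := by
  classical
  have hnd : z.Nodup := h1.nodup ((List.nodup_map_iff (Option.some_injective _)).2
    (List.nodup_finRange n))
  set A := (List.finRange n).take j with hA
  set B := (List.finRange n).drop j with hB
  have hAB : A ++ B = List.finRange n := List.take_append_drop _ _
  have hlen : A.length + B.length = n := by
    rw [← List.length_append, hAB, List.length_finRange]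
  have hndAB : (A ++ B).Nodup := by rw [hAB]; exact List.nodup_finRange n
  -- every letter of `z`
  have hmem : ∀ y ∈ z, y ∈ (A.filter (fun i => decide (i ∉ S))).map some ++ B.map some := by
    intro y hy
    have hy1 := h1.subset hy
    have hy2 := h2.subset hy
    simp only [base, List.mem_map, List.mem_finRange, true_and] at hy1
    obtain ⟨i, rfl⟩ := hy1
    have hi : i ∈ A ++ B := by rw [hAB]; exact List.mem_finRange i
    rcases List.mem_append.1 hi with hi | hi
    · by_cases hS : i ∈ S
      · exfalso
        rw [List.mem_append, word, test, List.mem_append, List.mem_map, List.mem_map] at hy2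
        rcases hy2 with ⟨i', -, h⟩ | h | ⟨i', h, h'⟩
        · unfold sym at h
          split_ifs at h with h'
          · simp only [Option.some.injEq] at h
            exact h' (h ▸ hS)
        · have := List.eq_of_mem_replicate h
          simp at this
        · simp only [Option.some.injEq] at h'
          subst h'
          exact (List.nodup_append.1 hndAB).2.2 i' hi i' h rfl
      · apply List.mem_append_left
        rw [List.mem_map]
        exact ⟨i, by simpa using ⟨hi, hS⟩, rfl⟩
    · exact List.mem_append_right _ (List.mem_map.2 ⟨i, hi, rfl⟩)
  have hcard : z.length ≤ ((A.filter (fun i => decide (i ∉ S))).map some ++ B.map some).length :=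
    (List.subperm_of_subset hnd hmem).length_le
  rw [List.length_append, List.length_map, List.length_map] at hcard
  have hcount : (A.filter (fun i => decide (i ∉ S))).length + A.countP (· ∈ S) = A.length := by
    rw [← List.countP_eq_length_filter, Nat.add_comm]
    have := List.length_eq_countP_add_countP (fun i => decide (i ∈ S)) (l := A)
    rw [this]
    congr 1
    apply List.countP_congr
    intro i _
    simp
  omega

theorem editDist_test (S : Finset (Fin n)) (j t : ℕ) (hj : j ≤ n) :
    editDist (base n) (word S ++ test n j t) =
      ((List.finRange n).take j).countP (· ∈ S) + ((n - j) + t) := by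
  apply le_antisymm
  · exact Nat.sInf_le (edits_test S j t)
  · apply le_csInf (edits_nonempty _ _)
    intro m hm
    obtain ⟨z, h1, h2, h3⟩ := Edits.common hm
    have h4 := common_length S j t z h1 h2
    have h5 : (word S ++ test n j t).length = n + (t + (n - j)) := by
      simp [word, test]
    omega

theorem separate {S T : Finset (Fin n)} (h : S ≠ T) :
    ∃ v : List (Option (Fin n)), ¬ (word S ++ v ∈ ball n (base n) ↔ word T ++ v ∈ ball n (base n))
    := by
  have h1 : ∃ j ≤ n, ((List.finRange n).take j).countP (· ∈ S) ≠
      ((List.finRange n).take j).countP (· ∈ T) := by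
    by_contra hcon
    push Not at hcon
    apply h
    ext i
    have e1 := hcon i (by omega)
    have e2 := hcon (i + 1) (by omega)
    have e3 : (List.finRange n).take (i + 1) = (List.finRange n).take i ++ [i] := by
      rw [List.take_succ_eq_append_getElem (by simp)]
      simp
    rw [e3, List.countP_append, List.countP_append, e1] at e2
    simp only [List.countP_singleton] at e2
    by_cases hS : i ∈ S <;> by_cases hT : i ∈ T <;> simp_all
  obtain ⟨j, hj, hne⟩ := h1
  have hS : ((List.finRange n).take j).countP (· ∈ S) ≤ j :=
    List.countP_le_length.trans (by simp)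
  have hT : ((List.finRange n).take j).countP (· ∈ T) ≤ j :=
    List.countP_le_length.trans (by simp)
  rcases lt_or_gt_of_ne hne with hlt | hlt
  · refine ⟨test n j (j - ((List.finRange n).take j).countP (· ∈ S)), ?_⟩
    rw [mem_ball, mem_ball, editDist_test S j _ hj, editDist_test T j _ hj]
    omega
  · refine ⟨test n j (j - ((List.finRange n).take j).countP (· ∈ T)), ?_⟩
    rw [mem_ball, mem_ball, editDist_test S j _ hj, editDist_test T j _ hj]
    omega

theorem card_le {σ : Type} [Fintype σ] (M : DFA (Option (Fin n)) σ)
    (hM : M.accepts = ball n (base n)) : 2 ^ n ≤ Fintype.card σ := by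
  have hinj : Function.Injective (fun S : Finset (Fin n) => M.eval (word S)) := by
    intro S T hST
    by_contra hne
    obtain ⟨v, hv⟩ := separate hne
    apply hv
    have hST' : M.eval (word S) = M.eval (word T) := hST
    have e : ∀ w, M.eval (w ++ v) = M.evalFrom (M.eval w) v := fun w =>
      M.evalFrom_of_append _ _ _
    rw [← hM, DFA.mem_accepts, DFA.mem_accepts, e, e, hST']
  have := Fintype.card_le_of_injective _ hinj
  simpa using this

end

theorem length_le_of_edits {A : Type} {m : ℕ} {u v : List A} (h : Edits m u v) :
    v.length ≤ u.length + m := by
  obtain ⟨z, h1, -, h3⟩ := h.common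
  have := h1.length_le
  omega

theorem ball_finite {A : Type} [Finite A] (k : ℕ) (x : List A) :
    (ball k x : Set (List A)).Finite := by
  refine (List.finite_length_le A (x.length + k)).subset ?_
  intro w hw
  have hw' : editDist x w ≤ k := hw
  have h1 := length_le_of_edits (Nat.sInf_mem (edits_nonempty x w))
  change w.length ≤ x.length + k
  have h2 : w.length ≤ x.length + editDist x w := h1
  omega

theorem regular_of_finite {A : Type} [Finite A] (L : Language A) (h : (L : Set (List A)).Finite) :
    L.IsRegular := by
  rw [Language.isRegular_iff_finite_range_leftQuotient]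
  -- all left quotients consist of words of bounded length
  obtain ⟨N, hN⟩ : ∃ N, ∀ w ∈ L, w.length ≤ N := by
    obtain ⟨N, hN⟩ := (h.image List.length).bddAbove
    exact ⟨N, fun w hw => hN ⟨w, hw, rfl⟩⟩
  have hfin : (𝒫 {w : List A | w.length ≤ N}).Finite :=
    (List.finite_length_le A N).finite_subsets
  refine hfin.subset ?_
  rintro _ ⟨u, rfl⟩
  intro w hw
  have : u ++ w ∈ L := hw
  have := hN _ this
  rw [List.length_append] at this
  change w.length ≤ N
  omega

theorem sc_spec {A : Type} [Finite A] (L : Language A) (h : L.IsRegular) :
    {m | ∃ M : DFA A (Fin m), M.accepts = L}.Nonempty := by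
  obtain ⟨σ, hσ, M, hM⟩ := h
  refine ⟨Fintype.card σ, M.reindex (Fintype.equivFin σ), ?_⟩
  rw [DFA.accepts_reindex, hM]

/-- For every `n` there are a finite alphabet with `n + 1` letters and a word `x` of length `n`
such that the minimal deterministic automaton of the ball of radius `n` around `x` has at least
`2 ^ n` states: the size of the smallest deterministic automaton of `B_k(x)` is exponential in
`min (k, |x|)`, with the constant `c = 1`. The second part says that the minimum in the definition
of `sc` is attained, so `sc` of a ball is the size of a minimal automaton. -/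
theorem result :
    (∀ n : ℕ, ∃ x : List (Option (Fin n)), x.length = n ∧
      2 ^ min n x.length ≤ sc (ball n x) ∧
      ∀ (σ : Type) [Fintype σ] (M : DFA (Option (Fin n)) σ), M.accepts = ball n x →
        2 ^ n ≤ Fintype.card σ) ∧
    (∀ (A : Type) [Finite A] (k : ℕ) (x : List A),
      ∃ M : DFA A (Fin (sc (ball k x))), M.accepts = ball k x) := by
  constructor
  · intro n
    refine ⟨base n, by simp [base], ?_, fun σ _ M hM => card_le M hM⟩
    have hlen : (base n).length = n := by simp [base]
    rw [hlen, min_self]
    apply le_csInf (sc_spec _ (regular_of_finite _ (ball_finite n (base n))))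
    rintro m ⟨M, hM⟩
    simpa using card_le M hM
  · intro A _ k x
    exact Nat.sInf_mem (sc_spec _ (regular_of_finite _ (ball_finite k x)))

end Pool.Agent.Results.MP_ecf776_lc.ExponentialBalls
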